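import Pool.Agent.Helper81.Sus3.Goals
import Pool.Agent.Helper81.Sus2.EDS

/-!
# SUS3-EDS: soundness of the edges (assuming SND and GRD)
-/

namespace Pool.Agent.Helper58.Sus3

open _root_.Pool.Agent.Helper65.LinSpace _root_.Pool.Agent.Helper78.Mpc
open _root_.Pool.Agent.Helper28.Ram Finset Filter
open _root_.Pool.Agent.Helper28.Sus (gf chs rc)
open _root_.Pool.Agent.Helper81.Sus2 hiding SND_stmt EDS_stmt bad edge
open _root_.Pool.Agent.Helper81.Sus3
open _root_.Pool.Agent.Helper31.SusD (nxt)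
open _root_.Pool.Agent.Helper81.Sus2H30 (ro_num num_lt_pow run_ro of_lt01 of_eq01)

/-- If `a` is not bad and its check is necessary, the result of the simulation is `1`. -/
theorem of_bad {P : Prm} {F : ℕ → ℕ → ℕ → ℕ → ℕ → ℕ → ℕ → ℕ} {m c p d p' Y τ a : ℕ}
    (h : bad P F m c p d p' Y τ a = 0)
    (ha : a = 0 ∨ (d ≠ 0 ∧ Prm.ro a = 0 ∧ (m ≠ 0 ∨ P.cl d a ≠ 0))) :
    F c p d p' Y τ a = 1 := by
  have h1 : ifz a 1 (lt01 0 d * ((1 - Prm.ro a) * ifz m (lt01 0 (P.cl d a)) 1)) = 1 := by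
    rcases ha with ha | ⟨h1, h2, h3⟩
    · subst ha
      rfl
    · by_cases ha : a = 0
      · subst ha
        rfl
      · have e1 : lt01 0 d = 1 := if_pos (Nat.pos_of_ne_zero h1)
        have e2 : ifz m (lt01 0 (P.cl d a)) 1 = 1 := by
          rcases h3 with h3 | h3
          · exact ifz_ne h3 _ _
          · by_cases hm : m = 0
            · subst hm
              show lt01 0 (P.cl d a) = 1
              exact if_pos (Nat.pos_of_ne_zero h3)
            · exact ifz_ne hm _ _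
        rw [ifz_ne ha, e1, e2, h2]
  unfold bad at h
  rw [h1, ifz_ne one_ne_zero] at h
  by_contra hc
  rw [eq01_ne hc] at h
  exact absurd h (by norm_num)

theorem of_all {P : Prm} {F : ℕ → ℕ → ℕ → ℕ → ℕ → ℕ → ℕ → ℕ} {m c p d p' Y τ : ℕ}
    (h : _root_.Pool.Agent.Helper81.Sus3.all P F m c p d p' Y τ ≠ 0) :
    ∀ a < 2 ^ (P.S + 1), bad P F m c p d p' Y τ a = 0 := by
  intro a ha
  exact (Finset.sum_eq_zero_iff.mp (of_eq01 h)) a (Finset.mem_range.mpr ha)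

/-- A successful test. -/
theorem win (hSND : SND_stmt) {A : NBM} {w y : List Bool} {P : Prm} (hC : Cod A w y P)
    (hSV : P.S ≤ P.V) {F : ℕ → ℕ → ℕ → ℕ → ℕ → ℕ → ℕ → ℕ}
    (hF : ∀ c p d p' Y τ a, a < 2 ^ (P.S + 1) → τ < 2 ^ P.V → F c p d p' Y τ a = 1 →
      ∃ T, (vf P τ Y c p d p' a T).1 = 1)
    {m c p d p' Y τ : ℕ} (hτ : τ < 2 ^ P.V) (hall : _root_.Pool.Agent.Helper81.Sus3.all P F m c p d p' Y τ ≠ 0)
    {f : List Bool × (List Bool → List Bool)} (hc0 : c ≠ 0) (hp : p ≤ P.u)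
    (hR : Rep A w y P c f) :
    Rep A w y P d (ptc A Y (f, p) τ).1 ∧
      (d ≠ 0 → p' ≤ P.u → (ptc A Y (f, p) τ).2 = p') := by
  have hbad := of_all hall
  have hpos : 0 < 2 ^ (P.S + 1) := Nat.two_pow_pos _
  obtain ⟨T0, hT0⟩ := hF c p d p' Y τ 0 hpos hτ (of_bad (hbad 0 hpos) (Or.inl rfl))
  obtain ⟨hl, hu, hacc, hst⟩ := hSND A w y P hC hSV c p d p' 0 τ Y T0 f hc0 hR hp hpos hT0
  refine ⟨?_, fun hd0 hp' => (hst hd0).2.1 hp'⟩
  by_cases hd0 : d = 0
  · exact Or.inl ⟨hd0, hacc hd0⟩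
  · refine Or.inr ⟨hd0, (hst hd0).1, hl, ?_, ?_⟩
    · intro i hi
      have e1 := run_ptc A Y (f, p) τ
      rw [← e1, run_ro A _ f i hi τ]
      rcases hR with h | h
      · exact absurd h.1 hc0
      · exact h.2.2.2.1 i hi
    · intro i hi hro
      by_cases hcl : P.cl d (num i) = 0
      · exact Or.inl hcl
      · have hlt : num i < 2 ^ (P.S + 1) :=
          (num_lt_pow i).trans_le (Nat.pow_le_pow_right (by norm_num) (by omega))
        obtain ⟨T, hT⟩ := hF c p d p' Y τ (num i) hlt hτ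
          (of_bad (hbad _ hlt) (Or.inr ⟨hd0, ro_num i hro, Or.inr hcl⟩))
        exact ((hSND A w y P hC hSV c p d p' (num i) τ Y T f hc0 hR hp hlt hT).2.2.2 hd0).2.2 i rfl

theorem iC_mk (P : Prm) (c : ℕ) : iC P ((P.u + 1) * c) = c := by
  unfold iC
  exact Nat.mul_div_cancel_left c (Nat.succ_pos _)

theorem iP_mk (P : Prm) (c : ℕ) : iP P ((P.u + 1) * c) = 0 := by
  unfold iP
  exact Nat.mul_mod_right _ _

theorem iP_le (P : Prm) (e : ℕ) : iP P e ≤ P.u := by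
  have h : e % (P.u + 1) < P.u + 1 := Nat.mod_lt e (Nat.succ_pos P.u)
  unfold iP
  omega

theorem eds (h1 : SND_stmt) (h2 : GRD_stmt) : EDS_stmt := by
  intro A w y P hC hSV F hF c d f he hR
  by_cases hcd : c = d
  · subst hcd
    exact ⟨fun _ => false, 0, hR⟩
  unfold edge at he
  rw [eq01_ne hcd, zero_add] at he
  have hc0 : c ≠ 0 := by
    have h := of_lt01 (left_ne_zero_of_mul he)
    omega
  have he2 := right_ne_zero_of_mul he
  have hs := of_lt01 (right_ne_zero_of_mul he2)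
  obtain ⟨Y, hY, hsY⟩ := Finset.exists_ne_zero_of_sum_ne_zero hs.ne'
  obtain ⟨j, hj, hsj⟩ := Finset.exists_ne_zero_of_sum_ne_zero hsY
  obtain ⟨τ, hτ, hsτ⟩ := Finset.exists_ne_zero_of_sum_ne_zero hsj
  have hτ' : τ < 2 ^ P.V := Finset.mem_range.mp hτ
  have hseq := of_lt01 (left_ne_zero_of_mul hsτ)
  have hfin := right_ne_zero_of_mul hsτ
  let R : ℕ → ℕ → Prop := fun e t => iC P e ≠ 0 ∧ Rep A w y P (iC P e) (ptc A Y (f, 0) t).1 ∧
    (ptc A Y (f, 0) t).2 = iP P e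
  have hR0 : R ((P.u + 1) * c) 0 := by
    refine ⟨?_, ?_, ?_⟩
    · rw [iC_mk]; exact hc0
    · rw [iC_mk]; exact hR
    · rw [iP_mk]; rfl
  have hpt : ∀ e t, R e t → ∀ τ, ptc A Y ((ptc A Y (f, 0) t).1, iP P e) τ =
      ptc A Y (f, 0) (t + τ) := by
    intro e t h τ
    rw [ptc_add, ← h.2.2]
  have hstep : ∀ e t τ e', R e t → τ < 2 ^ P.V → chk P F Y e τ e' ≠ 0 → R e' (t + τ) := by
    intro e t τ e' h hτ hch
    unfold chk at hch
    have g1 := right_ne_zero_of_mul hch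
    have g2 := of_lt01 (left_ne_zero_of_mul g1)
    have g3 := right_ne_zero_of_mul g1
    obtain ⟨g4, g5⟩ := win h1 hC hSV hF hτ g3 h.1 (iP_le P e) h.2.1
    rw [hpt e t h] at g4 g5
    exact ⟨g2.ne', g4, g5 g2.ne' (iP_le P e')⟩
  rcases h2.1 (chk P F Y) (2 ^ P.V) (iZ P) ((P.u + 1) * c) R hR0 hstep j with h | ⟨t, h⟩
  · exact absurd h hseq.ne'
  · have g := (win h1 hC hSV hF hτ' hfin h.1 (iP_le P _) h.2.1).1
    refine ⟨fun i => decide (dig 2 Y (ptc A Y (f, 0) i).2 = 1), t + τ, ?_⟩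
    have e1 := run_ptc A Y (f, 0) (t + τ)
    have e2 := hpt _ t h τ
    rw [e1, ← e2]
    exact g

end Pool.Agent.Helper58.Sus3
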